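import Pool.Agent.PFC.StmtsB3

/-!
# Squad PFC, block B3: row DMQ (helper75)
-/

open scoped BigOperators

noncomputable section

namespace Pool.Agent.PFC.B3.H75

open MvPolynomial

open Classical in
theorem dmq (hcyc : CycStmt) : DmqStmt := by
  intro L I E Λ _ _ _ _ _ _ _ q p t i0 η P hq ht
  have hfin : Module.Finite L Λ := Module.Finite.of_basis P.b
  refine ⟨hfin, ?_⟩
  have : Fintype E := Fintype.ofFinite E
  set y : I → Λ := fun i => P.j (X i) with hy
  have hrel : ∀ i, y i ^ q i = cc L I t i0 i • y (p i) := fun i => P.rel i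
  have hc := (hcyc L I Λ q p t i0 y hq hrel).1
  -- the elements of the cycle are in the range
  set R : Submodule L Λ := LinearMap.range (LinearMap.mulLeft L (P.j (X (p i0)))) with hR
  have hmem : ∀ i, p.SameCycle i0 i → ∀ z : Λ, y i * z ∈ R := by
    intro i hi z
    obtain ⟨n, m, hm, h⟩ := hc i hi
    obtain ⟨m', rfl⟩ : ∃ m', m = m' + 1 := ⟨m - 1, by omega⟩
    have h2 : y i = (t ^ n)⁻¹ • y (p i0) ^ (m' + 1) := by
      rw [h, smul_smul, inv_mul_cancel₀ (pow_ne_zero n ht), one_smul]
    refine ⟨(t ^ n)⁻¹ • (y (p i0) ^ m' * z), ?_⟩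
    rw [LinearMap.mulLeft_apply, h2, pow_succ', mul_smul_comm, smul_mul_assoc, mul_assoc]
  -- the index set
  let J : Type := {x : (∀ i, Fin (q i)) × E // ∀ i, p.SameCycle i0 i → ((x.1 i : Fin (q i)) : ℕ) = 0}
  have hspan : Submodule.span L (Set.range fun x : J => R.mkQ (P.b x.1)) = ⊤ := by
    rw [eq_top_iff]
    intro w hw
    clear hw
    obtain ⟨z, rfl⟩ := R.mkQ_surjective w
    have hz : z ∈ Submodule.span L (Set.range P.b) := by rw [P.b.span_eq]; trivial
    induction hz using Submodule.span_induction with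
    | mem u hu =>
      obtain ⟨x, rfl⟩ := hu
      by_cases hx : ∀ i, p.SameCycle i0 i → ((x.1 i : Fin (q i)) : ℕ) = 0
      · exact Submodule.subset_span ⟨⟨x, hx⟩, rfl⟩
      · push Not at hx
        obtain ⟨i, hi, hxi⟩ := hx
        have h0 : P.b x ∈ R := by
          obtain ⟨α, e⟩ := x
          rw [P.hb]
          have h3 : mo L I α = X i * (X i ^ ((α i : ℕ) - 1) *
              ∏ k ∈ Finset.univ.erase i, (X k : MvPolynomial I L) ^ (α k : ℕ)) := by
            unfold mo
            rw [← Finset.mul_prod_erase Finset.univ _ (Finset.mem_univ i), ← mul_assoc,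
              ← pow_succ']
            congr 2
            have : (α i : ℕ) ≠ 0 := hxi
            omega
          rw [h3, map_mul, mul_assoc]
          exact hmem i hi _
        have h00 : R.mkQ (P.b x) = 0 := (Submodule.Quotient.mk_eq_zero R).mpr h0
        rw [h00]
        exact Submodule.zero_mem _
    | zero => rw [map_zero]; exact Submodule.zero_mem _
    | add a b _ _ ha hb => rw [map_add]; exact Submodule.add_mem _ ha hb
    | smul c a _ ha => rw [map_smul]; exact Submodule.smul_mem _ c ha
  have h1 : Module.finrank L (Λ ⧸ R) ≤ Fintype.card J := finrank_le_of_span_eq_top hspan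
  have h2 : Module.finrank L Λ = Fintype.card ((∀ i, Fin (q i)) × E) :=
    Module.finrank_eq_card_basis P.b
  have h4 : (∏ i ∈ Finset.univ.filter (fun i => p.SameCycle i0 i), q i) =
      Fintype.card (∀ i : {i // p.SameCycle i0 i}, Fin (q i)) := by
    rw [Fintype.card_pi]
    simp only [Fintype.card_fin]
    exact Finset.prod_subtype _ (by simp) q
  have h5 : Fintype.card (∀ i : {i // p.SameCycle i0 i}, Fin (q i)) * Fintype.card J ≤
      Fintype.card ((∀ i, Fin (q i)) × E) := by
    rw [← Fintype.card_prod]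
    refine Fintype.card_le_of_injective (fun x : (∀ i : {i // p.SameCycle i0 i}, Fin (q i)) × J =>
      ((fun i => if h : p.SameCycle i0 i then x.1 ⟨i, h⟩ else x.2.1.1 i, x.2.1.2) :
        (∀ i, Fin (q i)) × E)) ?_
    rintro ⟨β, ⟨⟨α, e⟩, hα⟩⟩ ⟨β', ⟨⟨α', e'⟩, hα'⟩⟩ h
    have he : e = e' := congrArg Prod.snd h
    have hf : ∀ i, (if h : p.SameCycle i0 i then β ⟨i, h⟩ else α i) =
        (if h : p.SameCycle i0 i then β' ⟨i, h⟩ else α' i) := fun i =>
      congrFun (congrArg Prod.fst h) i
    have hβ : β = β' := by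
      funext ⟨i, hi⟩
      have := hf i
      rw [dif_pos hi, dif_pos hi] at this
      exact this
    have hαα : α = α' := by
      funext i
      by_cases hi : p.SameCycle i0 i
      · exact Fin.ext ((hα i hi).trans (hα' i hi).symm)
      · have := hf i
        rw [dif_neg hi, dif_neg hi] at this
        exact this
    subst hβ hαα he
    rfl
  calc (∏ i ∈ Finset.univ.filter (fun i => p.SameCycle i0 i), q i) *
        Module.finrank L (Λ ⧸ R) ≤
      (∏ i ∈ Finset.univ.filter (fun i => p.SameCycle i0 i), q i) * Fintype.card J :=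
        Nat.mul_le_mul_left _ h1
    _ ≤ Module.finrank L Λ := by
      rw [h2, h4]; exact h5

end Pool.Agent.PFC.B3.H75
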